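import Pool.Agent.V5helper35.AS.StmA

set_option autoImplicit false

namespace Pool.Agent.V5helper26.AS

open Pool.Agent.V5helper35.AS Pool.Agent.R387.TC Pool.Agent.N77.CS

/-- a free group all of whose elements commute is cyclic -/
theorem cyclic_of_comm {H : Type*} [Group H] [IsFreeGroup H] (hc : ∀ x y : H, x * y = y * x) :
    ∃ v : H, ∀ x : H, ∃ i : ℤ, x = v ^ i := by
  classical
  have hsub : ∀ a b : IsFreeGroup.Generators H, a = b := by
    intro a b
    by_contra hab
    let f : IsFreeGroup.Generators H → Equiv.Perm (Fin 3) := fun x =>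
      if x = a then Equiv.swap 0 1 else Equiv.swap 1 2
    let φ : H →* Equiv.Perm (Fin 3) := IsFreeGroup.lift f
    have ha : φ (IsFreeGroup.of a) = Equiv.swap 0 1 := by
      simp only [φ, IsFreeGroup.lift_of, f, if_true]
    have hb : φ (IsFreeGroup.of b) = Equiv.swap 1 2 := by
      simp only [φ, IsFreeGroup.lift_of, f]
      rw [if_neg (fun h => hab h.symm)]
    have h := congrArg φ (hc (IsFreeGroup.of a) (IsFreeGroup.of b))
    rw [map_mul, map_mul, ha, hb] at h
    revert h
    decide
  by_cases hne : Nonempty (IsFreeGroup.Generators H)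
  · obtain ⟨a⟩ := hne
    refine ⟨IsFreeGroup.of a, fun x => ?_⟩
    -- the retraction to the cyclic subgroup generated by `of a` is the identity
    let Z : Subgroup H := Subgroup.zpowers (IsFreeGroup.of a)
    let ψ : H →* Z := IsFreeGroup.lift (fun _ => ⟨IsFreeGroup.of a, Subgroup.mem_zpowers _⟩)
    have h : Z.subtype.comp ψ = MonoidHom.id H := by
      apply IsFreeGroup.ext_hom
      intro b
      rw [hsub b a]
      simp [ψ]
    have h2 : ((ψ x : Z) : H) = x := by
      have := DFunLike.congr_fun h x
      simpa using this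
    obtain ⟨i, hi⟩ := Subgroup.mem_zpowers_iff.1 (ψ x).2
    exact ⟨i, by rw [hi, h2]⟩
  · refine ⟨1, fun x => ⟨0, ?_⟩⟩
    have h : (MonoidHom.id H) = (1 : H →* H) := by
      apply IsFreeGroup.ext_hom
      intro b
      exact absurd ⟨b⟩ hne
    have := DFunLike.congr_fun h x
    simpa using this

theorem t_CEN : S_CEN := by
  intro n w hw g hg
  let K : Subgroup (F n) := Subgroup.closure ({g, w} : Set (F n))
  have hgK : g ∈ K := Subgroup.subset_closure (by simp)
  have hwK : w ∈ K := Subgroup.subset_closure (by simp)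
  have hfree : IsFreeGroup K := subgroupIsFreeOfIsFree K
  have hcomm : ∀ x y : K, x * y = y * x := by
    have h1 : ∀ x ∈ K, ∀ y ∈ K, x * y = y * x := by
      intro x hx y hy
      have hx' : K ≤ Subgroup.centralizer ({g, w} : Set (F n)) := by
        rw [Subgroup.closure_le]
        intro a ha
        rw [SetLike.mem_coe, Subgroup.mem_centralizer_iff]
        intro b hb
        simp only [Set.mem_insert_iff, Set.mem_singleton_iff] at ha hb
        rcases ha with rfl | rfl <;> rcases hb with rfl | rfl
        · rfl
        · exact hg.symm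
        · exact hg
        · rfl
      have hy' : K ≤ Subgroup.centralizer (K : Set (F n)) := by
        rw [Subgroup.closure_le]
        intro a ha
        rw [SetLike.mem_coe, Subgroup.mem_centralizer_iff]
        intro b hb
        exact (Subgroup.mem_centralizer_iff.1 (hx' hb) a ha).symm
      exact Subgroup.mem_centralizer_iff.1 (hy' hy) x hx
    intro x y
    exact Subtype.ext (h1 x.1 x.2 y.1 y.2)
  obtain ⟨v, hv⟩ := cyclic_of_comm hcomm
  obtain ⟨i, hi⟩ := hv ⟨g, hgK⟩
  obtain ⟨j, hj⟩ := hv ⟨w, hwK⟩
  have hi' : g = (v : F n) ^ i := by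
    have := congrArg Subtype.val hi
    simpa using this
  have hj' : w = (v : F n) ^ j := by
    have := congrArg Subtype.val hj
    simpa using this
  rcases hw.2 _ j hj' with h | h
  · refine ⟨i, ?_⟩
    rw [hi', hj', h, zpow_one]
  · refine ⟨-i, ?_⟩
    rw [hi', hj', h, ← zpow_mul]
    congr 1
    ring

end Pool.Agent.V5helper26.AS
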